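import Pool.Agent.Q69.DL.Chern
import Pool.Agent.Helper923.HMertens
import Pool.Agent.Q285.MD.Avg

/-!
# Euler products at the edge of absolute convergence: sums over primes, shares of boxes
-/

set_option autoImplicit false
set_option linter.unusedSectionVars false

namespace Q69ED

open Finset
open Q282LT (avg zbox zprop ZPer mean_shift zbox_card)
open Q282.BP (bx mem_bx card_bx bx_mean)
open Pool.Agent.TH894.NE (box mem_box card_box Per mean mean_mul mean_mono mean_add mean_const mean_prod)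

/-- the primes `p` with `y < p ≤ x` -/
noncomputable def Pr (y x : ℕ) : Finset ℕ := (Ioc y x).filter Nat.Prime

lemma mem_Pr {y x p : ℕ} : p ∈ Pr y x ↔ (y < p ∧ p ≤ x) ∧ p.Prime := by
  unfold Pr
  rw [mem_filter, mem_Ioc]

lemma card_Pr (y x : ℕ) : (Pr y x).card ≤ x := by
  unfold Pr
  refine (card_filter_le _ _).trans ?_
  rw [Nat.card_Ioc]
  omega

lemma Pr_split {y z x : ℕ} (h1 : y ≤ z) (h2 : z ≤ x) (f : ℕ → ℝ) :
    ∑ p ∈ Pr y x, f p = ∑ p ∈ Pr y z, f p + ∑ p ∈ Pr z x, f p := by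
  unfold Pr
  rw [← Ioc_union_Ioc_eq_Ioc h1 h2, filter_union, sum_union]
  rw [disjoint_left]
  intro p hp hp'
  rw [mem_filter, mem_Ioc] at hp hp'
  omega

lemma sum_sq {y x : ℕ} (hy : 1 ≤ y) : ∑ p ∈ Pr y x, (1 : ℝ) / (p : ℝ) ^ 2 ≤ (1 : ℝ) / (y : ℝ) := by
  rcases Nat.lt_or_ge x y with h | h
  · have : Pr y x = ∅ := by
      unfold Pr
      rw [Ioc_eq_empty (by omega), filter_empty]
    rw [this, sum_empty]
    positivity
  · have h1 : ∑ p ∈ Pr y x, 1 / (p : ℝ) ^ 2 ≤ ∑ p ∈ Ioc y x, ((p : ℝ) ^ 2)⁻¹ := by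
      unfold Pr
      refine (sum_le_sum_of_subset_of_nonneg (filter_subset _ _) fun p _ _ => by positivity).trans ?_
      refine sum_le_sum fun p _ => by rw [one_div]
    refine h1.trans ((sum_Ioc_inv_sq_le_sub (by omega) h).trans ?_)
    have : (0 : ℝ) ≤ (x : ℝ)⁻¹ := by positivity
    rw [one_div]
    linarith

lemma rpow_step {δ : ℝ} (hδ : 0 < δ) {n : ℕ} (hn : 1 ≤ n) :
    ((n + 1 : ℕ) : ℝ) ^ (-(1 + δ)) ≤ ((n : ℝ) ^ (-δ) - ((n + 1 : ℕ) : ℝ) ^ (-δ)) / δ := by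
  have hn0 : (0 : ℝ) < n := by exact_mod_cast hn
  have hn1 : (0 : ℝ) < ((n + 1 : ℕ) : ℝ) := by positivity
  rw [le_div_iff₀ hδ]
  have h1 : (n : ℝ) ^ (-δ) = ((n + 1 : ℕ) : ℝ) ^ (-δ) * ((n : ℝ) / ((n + 1 : ℕ) : ℝ)) ^ (-δ) := by
    rw [← Real.mul_rpow hn1.le (by positivity)]
    congr 1
    field_simp
  have h2 : 1 + δ / ((n + 1 : ℕ) : ℝ) ≤ ((n : ℝ) / ((n + 1 : ℕ) : ℝ)) ^ (-δ) := by
    rw [Real.rpow_def_of_pos (by positivity)]
    have h3 : Real.log ((n : ℝ) / ((n + 1 : ℕ) : ℝ)) ≤ -(1 / ((n + 1 : ℕ) : ℝ)) := by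
      have h4 := Real.log_le_sub_one_of_pos (x := (n : ℝ) / ((n + 1 : ℕ) : ℝ)) (by positivity)
      refine h4.trans (le_of_eq ?_)
      have : ((n + 1 : ℕ) : ℝ) ≠ 0 := hn1.ne'
      field_simp
      push_cast
      ring
    have h5 : δ / ((n + 1 : ℕ) : ℝ) ≤ Real.log ((n : ℝ) / ((n + 1 : ℕ) : ℝ)) * -δ := by
      have h6 := mul_le_mul_of_nonneg_left h3 hδ.le
      have e : δ * -(1 / ((n + 1 : ℕ) : ℝ)) = -(δ / ((n + 1 : ℕ) : ℝ)) := by ring
      rw [e] at h6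
      linarith
    have h7 := Real.add_one_le_exp (Real.log ((n : ℝ) / ((n + 1 : ℕ) : ℝ)) * -δ)
    linarith
  have h8 : 0 < ((n + 1 : ℕ) : ℝ) ^ (-δ) := Real.rpow_pos_of_pos hn1 _
  have h9 : ((n + 1 : ℕ) : ℝ) ^ (-(1 + δ)) = ((n + 1 : ℕ) : ℝ) ^ (-δ) * (1 / ((n + 1 : ℕ) : ℝ)) := by
    have e0 : -(1 + δ) = -δ + -1 := by ring
    rw [e0, Real.rpow_add hn1, Real.rpow_neg_one, one_div]
  have h10 := mul_le_mul_of_nonneg_left h2 h8.le
  rw [h1, h9]
  have e : ((n + 1 : ℕ) : ℝ) ^ (-δ) * (1 + δ / ((n + 1 : ℕ) : ℝ)) =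
    ((n + 1 : ℕ) : ℝ) ^ (-δ) + ((n + 1 : ℕ) : ℝ) ^ (-δ) * (1 / ((n + 1 : ℕ) : ℝ)) * δ := by ring
  rw [e] at h10
  linarith

lemma sum_rpow {δ : ℝ} (hδ : 0 < δ) {y x : ℕ} (hy : 1 ≤ y) :
    ∑ p ∈ Pr y x, (p : ℝ) ^ (-(1 + δ)) ≤ (y : ℝ) ^ (-δ) / δ := by
  have hy0 : (0 : ℝ) < y := by exact_mod_cast hy
  have h0 : ∀ z : ℕ, y ≤ z → ∑ p ∈ Ioc y z, (p : ℝ) ^ (-(1 + δ)) ≤ ((y : ℝ) ^ (-δ) - (z : ℝ) ^ (-δ)) / δ := by
    intro z hz
    induction z, hz using Nat.le_induction with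
    | base => simp
    | succ z hz ih =>
      rw [sum_Ioc_succ_top (by omega)]
      have h1 := rpow_step hδ (n := z) (by omega)
      have e : ((y : ℝ) ^ (-δ) - ((z + 1 : ℕ) : ℝ) ^ (-δ)) / δ =
        ((y : ℝ) ^ (-δ) - (z : ℝ) ^ (-δ)) / δ + ((z : ℝ) ^ (-δ) - ((z + 1 : ℕ) : ℝ) ^ (-δ)) / δ := by ring
      rw [e]
      exact add_le_add ih h1
  rcases Nat.lt_or_ge x y with h | h
  · have : Pr y x = ∅ := by
      unfold Pr
      rw [Ioc_eq_empty (by omega), filter_empty]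
    rw [this, sum_empty]
    have := Real.rpow_pos_of_pos hy0 (-δ)
    positivity
  · unfold Pr
    refine (sum_le_sum_of_subset_of_nonneg (filter_subset _ _) fun p _ _ => Real.rpow_nonneg (Nat.cast_nonneg _) _).trans ?_
    refine (h0 x h).trans ?_
    have : 0 ≤ (x : ℝ) ^ (-δ) := Real.rpow_nonneg (Nat.cast_nonneg _) _
    exact div_le_div_of_nonneg_right (by linarith) hδ.le

open Classical in
lemma zprop_all {d : ℕ} (I : Finset ℕ) (q : ℕ → ℕ) (hq : ∀ a ∈ I, 1 ≤ q a)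
    (hco : ∀ a ∈ I, ∀ b ∈ I, a ≠ b → Nat.Coprime (q a) (q b)) (P : ℕ → (Fin d → ℤ) → Prop)
    (hP : ∀ a ∈ I, ∀ ν ν' : Fin d → ℤ, (∀ i, (q a : ℤ) ∣ ν i - ν' i) → (P a ν ↔ P a ν')) (m : Fin d → ℤ) (L : Fin d → ℕ)
    (T : ℝ) (hT : 0 < T) (hL : ∀ i, T ≤ L i) :
    ∏ a ∈ I, avg d (q a) (fun ν => if P a ν then 1 else 0) - (Real.exp (d * ((∏ a ∈ I, q a : ℕ) : ℝ) / T) - 1) ≤
      zprop m L (fun ν => ∀ a ∈ I, P a ν) := by
  have hL0 : ∀ i, (0 : ℝ) < L i := fun i => hT.trans_le (hL i)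
  have hP0 : 0 < ∏ i, (L i : ℝ) := prod_pos fun i _ => hL0 i
  obtain ⟨Q, hQ⟩ : ∃ Q : ℕ, Q = ∏ a ∈ I, q a := ⟨_, rfl⟩
  have hQ0 : 0 < Q := by
    rw [hQ]
    exact prod_pos fun a ha => hq a ha
  obtain ⟨H, hH⟩ : ∃ H : (Fin d → ℕ) → ℝ, H = fun n => ∏ a ∈ I, if P a (fun i => m i + n i) then (1 : ℝ) else 0 := ⟨_, rfl⟩
  have hGp : ∀ a ∈ I, Per (q a) (fun n : Fin d → ℕ => if P a (fun i => m i + n i) then (1 : ℝ) else 0) := by
    intro a ha
    have h1 : ZPer (q a) (fun ν => if P a ν then (1 : ℝ) else 0) := by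
      intro ν ν' hν
      show (if P a ν then (1 : ℝ) else 0) = if P a ν' then 1 else 0
      rw [if_congr (hP a ha ν ν' hν) rfl rfl]
    exact h1.per m
  have hHP : Per Q H := by
    intro n
    rw [hH]
    refine prod_congr rfl fun a ha => ?_
    exact (hGp a ha).of_dvd (by rw [hQ]; exact dvd_prod_of_mem q ha) n
  have hHb : ∀ n, |H n| ≤ 1 := by
    intro n
    rw [hH, abs_prod]
    refine prod_le_one (fun a _ => abs_nonneg _) fun a _ => ?_
    split_ifs <;> simp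
  have h1 := bx_mean hQ0 L T hT hL H hHP 1 hHb
  have h2 : mean d Q H = ∏ a ∈ I, avg d (q a) (fun ν => if P a ν then 1 else 0) := by
    rw [hH, hQ, mean_prod I q hq hco _ hGp]
    refine prod_congr rfl fun a ha => ?_
    exact mean_shift (hq a ha) (f := fun ν => if P a ν then (1 : ℝ) else 0) (fun ν ν' hν => by
      show (if P a ν then (1 : ℝ) else 0) = if P a ν' then 1 else 0
      rw [if_congr (hP a ha ν ν' hν) rfl rfl]) m
  have h3 : zprop m L (fun ν => ∀ a ∈ I, P a ν) = (∑ n ∈ bx L, H n) / ∏ i, (L i : ℝ) := by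
    unfold Q282LT.zprop
    congr 1
    rw [zbox_card]
    rw [card_eq_sum_ones]
    push_cast
    rw [sum_filter]
    refine sum_congr rfl fun n _ => ?_
    rw [hH]
    beta_reduce
    by_cases h : ∀ a ∈ I, P a (fun i => m i + n i)
    · rw [if_pos h, prod_congr rfl fun a ha => if_pos (h a ha), prod_const_one]
    · rw [if_neg h]
      push Not at h
      obtain ⟨a, ha, hna⟩ := h
      exact (prod_eq_zero ha (if_neg hna)).symm
  rw [h3, le_div_iff₀ hP0, ← hQ, ← h2]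
  have h4 := (abs_le.1 h1).1
  have e : (mean d Q H - (Real.exp (d * (Q : ℝ) / T) - 1)) * ∏ i, (L i : ℝ) =
    (∏ i, (L i : ℝ)) * mean d Q H - (∏ i, (L i : ℝ)) * (1 * (Real.exp (d * (Q : ℝ) / T) - 1)) := by ring
  rw [e]
  linarith

lemma zprop_le {d : ℕ} {m : Fin d → ℤ} {L : Fin d → ℕ} {P : (Fin d → ℤ) → Prop} (hP : 0 < ∏ i, (L i : ℝ))
    (A : Finset (Fin d → ℤ)) {c : ℝ} (h : ∀ ν ∈ zbox m L, P ν → ν ∈ A) (hc : (A.card : ℝ) ≤ c * ∏ i, (L i : ℝ)) :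
    zprop m L P ≤ c := by
  classical
  unfold Q282LT.zprop
  rw [div_le_iff₀ hP]
  refine le_trans ?_ hc
  have : ((zbox m L).filter P) ⊆ A := by
    intro ν hν
    rw [mem_filter] at hν
    exact h ν hν.1 hν.2
  exact_mod_cast card_le_card this

lemma zprop_mono {d : ℕ} {m : Fin d → ℤ} {L : Fin d → ℕ} {P Q : (Fin d → ℤ) → Prop} (hP : 0 < ∏ i, (L i : ℝ))
    (h : ∀ ν, P ν → Q ν) : zprop m L P ≤ zprop m L Q := by
  classical
  unfold Q282LT.zprop
  refine div_le_div_of_nonneg_right ?_ hP.le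
  exact_mod_cast card_le_card fun ν hν => by
    rw [mem_filter] at hν ⊢
    exact ⟨hν.1, h ν hν.2⟩

lemma zprop_or {d : ℕ} {m : Fin d → ℤ} {L : Fin d → ℕ} (P Q : (Fin d → ℤ) → Prop) (hP : 0 < ∏ i, (L i : ℝ)) :
    zprop m L (fun ν => P ν ∨ Q ν) ≤ zprop m L P + zprop m L Q := by
  classical
  have key : ∀ R : (Fin d → ℤ) → Prop, (((zbox m L).filter R).card : ℝ) = zprop m L R * ∏ i, (L i : ℝ) := by
    intro R
    unfold Q282LT.zprop
    rw [div_mul_cancel₀ _ hP.ne']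
  refine zprop_le hP (((zbox m L).filter P) ∪ ((zbox m L).filter Q)) ?_ ?_
  · rintro ν hν (h | h)
    · exact mem_union_left _ (mem_filter.2 ⟨hν, h⟩)
    · exact mem_union_right _ (mem_filter.2 ⟨hν, h⟩)
  · have h2 := card_union_le ((zbox m L).filter P) ((zbox m L).filter Q)
    have h3 : (((((zbox m L).filter P) ∪ ((zbox m L).filter Q)).card : ℕ) : ℝ) ≤
        (((zbox m L).filter P).card : ℝ) + (((zbox m L).filter Q).card : ℝ) := by exact_mod_cast h2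
    rw [key P, key Q] at h3
    linarith

lemma zprop_exists {d : ℕ} {m : Fin d → ℤ} {L : Fin d → ℕ} (hP : 0 < ∏ i, (L i : ℝ)) (X : ℕ) (P : ℕ → (Fin d → ℤ) → Prop) {B : ℝ}
    (h : ∀ x ≤ X, zprop m L (P x) ≤ B) : zprop m L (fun ν => ∃ x ≤ X, P x ν) ≤ (X + 1) * B := by
  classical
  refine zprop_le hP ((range (X + 1)).biUnion fun x => (zbox m L).filter (P x)) ?_ ?_
  · rintro ν hν ⟨x, hx, hν2⟩
    rw [mem_biUnion]
    exact ⟨x, mem_range.2 (by omega), mem_filter.2 ⟨hν, hν2⟩⟩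
  · have h2 := card_biUnion_le (s := range (X + 1)) (t := fun x => (zbox m L).filter (P x))
    have h3 : ∀ x ≤ X, (((zbox m L).filter (P x)).card : ℝ) ≤ B * ∏ i, (L i : ℝ) := by
      intro x hx
      have h4 := h x hx
      unfold Q282LT.zprop at h4
      rw [div_le_iff₀ hP] at h4
      refine le_trans (le_of_eq ?_) h4
      congr 2
    calc ((((range (X + 1)).biUnion fun x => (zbox m L).filter (P x)).card : ℕ) : ℝ) ≤
          ∑ x ∈ range (X + 1), (((zbox m L).filter (P x)).card : ℝ) := by exact_mod_cast h2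
      _ ≤ ∑ _x ∈ range (X + 1), B * ∏ i, (L i : ℝ) := by
          refine sum_le_sum fun x hx => ?_
          rw [mem_range] at hx
          exact h3 x (by omega)
      _ = (X + 1) * B * ∏ i, (L i : ℝ) := by
          rw [sum_const, card_range, nsmul_eq_mul]
          push_cast
          ring

/-- `p ↦ lam p ν` depends on `ν` modulo `p`, is bounded by `b`, its mean is `r + O(p^(-δ))` -/
structure Hyp (d : ℕ) (b r C δ : ℝ) (lam : ℕ → (Fin d → ℤ) → ℝ) : Prop where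
  per : ∀ p, p.Prime → ZPer p (lam p)
  bd : ∀ p, p.Prime → ∀ ν, |lam p ν| ≤ b
  mean : ∀ p, p.Prime → |avg d p (lam p) - r| ≤ C * (p : ℝ) ^ (-δ)

/-- the sum over the primes of `(y, x]` -/
noncomputable def S {d : ℕ} (lam : ℕ → (Fin d → ℤ) → ℝ) (y x : ℕ) (ν : Fin d → ℤ) : ℝ := ∑ p ∈ Pr y x, lam p ν / p

/-- the tail: Chernoff's bound for the centred sum over the primes of `(z, x]` -/
theorem tail : ∃ K : ℝ, 0 < K ∧ ∀ (b κ : ℝ), 0 < b → 0 < κ → κ ≤ b → ∀ (d : ℕ) (lam : ℕ → (Fin d → ℤ) → ℝ),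
    (∀ p, p.Prime → ZPer p (lam p)) → (∀ p, p.Prime → ∀ ν, |lam p ν| ≤ b) →
    ∀ (z x X : ℕ), 2 ≤ z → x ≤ X → 2 ≤ X → ∀ (m : Fin d → ℤ) (L : Fin d → ℕ), (∀ i, (d + 1) * (X : ℝ) ^ (K * z) ≤ L i) →
      zprop m L (fun ν => ∑ p ∈ Pr z x, avg d p (lam p) / p + κ ≤ ∑ p ∈ Pr z x, lam p ν / p) ≤
        4 * Real.exp (-(κ ^ 2 / (2 * b ^ 2 * Real.exp 2) * z)) := by
  obtain ⟨K, hK, hch⟩ := Q69DL.chern_z 1 one_pos
  refine ⟨K, hK, ?_⟩
  intro b κ hb hκ hκb d lam hper hbd z x X hz hxX hX m L hL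
  have hz0 : (0 : ℝ) < z := by exact_mod_cast (by omega : 0 < z)
  have hz1 : (1 : ℝ) ≤ z := by exact_mod_cast (by omega : 1 ≤ z)
  obtain ⟨f, hf⟩ : ∃ f : ℕ → (Fin d → ℤ) → ℝ, f = fun p ν => z / b * (lam p ν / p) := ⟨_, rfl⟩
  have hfb : ∀ p ∈ Pr z x, ∀ ν, |f p ν| ≤ z / p := by
    intro p hp ν
    rw [mem_Pr] at hp
    have hp0 : (0 : ℝ) < p := by exact_mod_cast hp.2.pos
    rw [hf]
    show |z / b * (lam p ν / p)| ≤ z / p
    rw [abs_mul, abs_div, abs_div, abs_of_pos hz0, abs_of_pos hb, abs_of_pos hp0]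
    calc z / b * (|lam p ν| / p) ≤ z / b * (b / p) := by
          refine mul_le_mul_of_nonneg_left ?_ (by positivity)
          exact div_le_div_of_nonneg_right (hbd p hp.2 ν) hp0.le
      _ = z / p := by field_simp
  have hf1 : ∀ p ∈ Pr z x, ∀ ν, |f p ν| ≤ 1 := by
    intro p hp ν
    refine (hfb p hp ν).trans ?_
    rw [mem_Pr] at hp
    have hp0 : (0 : ℝ) < p := by exact_mod_cast hp.2.pos
    rw [div_le_one hp0]
    exact_mod_cast hp.1.1.le
  have havg : ∀ p, avg d p (f p) = z / b * (avg d p (lam p) / p) := by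
    intro p
    rw [hf]
    show avg d p (fun ν => z / b * (lam p ν / p)) = _
    unfold Q282LT.avg
    rw [← mul_sum, ← sum_div]
    ring
  have hW : ∑ p ∈ Pr z x, (avg d p (fun ν => f p ν ^ 2) - avg d p (f p) ^ 2) ≤ z := by
    calc ∑ p ∈ Pr z x, (avg d p (fun ν => f p ν ^ 2) - avg d p (f p) ^ 2) ≤ ∑ p ∈ Pr z x, z ^ 2 * (1 / (p : ℝ) ^ 2) := by
          refine sum_le_sum fun p hp => ?_
          have hp' := hp
          rw [mem_Pr] at hp'
          have hp0 : (0 : ℝ) < p := by exact_mod_cast hp'.2.pos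
          have h1 : avg d p (fun ν => f p ν ^ 2) ≤ z ^ 2 * (1 / (p : ℝ) ^ 2) := by
            have h2 := Q285MD.avg_mono (d := d) (q := p) (f := fun ν => f p ν ^ 2) (g := fun _ => (z : ℝ) ^ 2 * (1 / (p : ℝ) ^ 2))
              (fun ν => by
                have h3 := pow_le_pow_left₀ (abs_nonneg _) (hfb p hp ν) 2
                rw [sq_abs, div_pow] at h3
                rw [mul_one_div]
                exact h3)
            rwa [Q285MD.avg_const hp'.2.one_lt.le] at h2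
          have h4 : 0 ≤ avg d p (f p) ^ 2 := sq_nonneg _
          linarith
      _ = z ^ 2 * ∑ p ∈ Pr z x, 1 / (p : ℝ) ^ 2 := by rw [mul_sum]
      _ ≤ z ^ 2 * (1 / z) := mul_le_mul_of_nonneg_left (sum_sq (by omega)) (by positivity)
      _ = z := by field_simp
  have he1 : (1 : ℝ) ≤ Real.exp 2 := Real.one_le_exp (by norm_num)
  have he0 : (0 : ℝ) < Real.exp 2 := Real.exp_pos _
  obtain ⟨t, ht⟩ : ∃ t, t = κ / (b * Real.exp 2) := ⟨_, rfl⟩
  have ht0 : 0 < t := by rw [ht]; positivity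
  have ht1 : t ≤ 1 := by
    rw [ht, div_le_one (by positivity)]
    calc κ ≤ b * 1 := by linarith
      _ ≤ b * Real.exp 2 := mul_le_mul_of_nonneg_left he1 hb.le
  have hκ1 : κ / b ≤ 1 := by rwa [div_le_one hb]
  have h1 := hch d (Pr z x) id f (fun p hp => (mem_Pr.1 hp).2.one_lt.le)
    (fun p hp p' hp' hne => (Nat.coprime_primes (mem_Pr.1 hp).2 (mem_Pr.1 hp').2).2 hne)
    (fun p hp ν ν' hν => by
      rw [hf]
      show z / b * (lam p ν / p) = z / b * (lam p ν' / p)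
      rw [hper p (mem_Pr.1 hp).2 ν ν' hν]) hf1 z hW t z (κ * z / b) ht0 ht1 hz1
    (by
      have : t ^ 2 ≤ 1 := pow_le_one₀ ht0.le ht1
      calc t ^ 2 * z ≤ 1 * z := mul_le_mul_of_nonneg_right this hz0.le
        _ = z := one_mul _)
    (by positivity)
    (by
      have e : t * (κ * z / b) = t * (κ / b) * z := by ring
      rw [e]
      have : t * (κ / b) ≤ 1 := mul_le_one₀ ht1 (by positivity) hκ1
      calc t * (κ / b) * z ≤ 1 * z := mul_le_mul_of_nonneg_right this hz0.le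
        _ = z := one_mul _)
    X hX (fun p hp => (mem_Pr.1 hp).1.2.trans hxX) ((card_Pr z x).trans hxX) m L hL
  have h2 : zprop m L (fun ν => ∑ p ∈ Pr z x, avg d p (lam p) / p + κ ≤ ∑ p ∈ Pr z x, lam p ν / p) =
      zprop m L (fun ν => ∑ p ∈ Pr z x, avg d (id p) (f p) + κ * z / b ≤ ∑ p ∈ Pr z x, f p ν) := by
    congr 1
    funext ν
    apply propext
    have e1 : ∑ p ∈ Pr z x, avg d (id p) (f p) = z / b * ∑ p ∈ Pr z x, avg d p (lam p) / p := by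
      rw [mul_sum]
      exact sum_congr rfl fun p _ => havg p
    have e2 : ∑ p ∈ Pr z x, f p ν = z / b * ∑ p ∈ Pr z x, lam p ν / p := by
      rw [mul_sum, hf]
    rw [e1, e2]
    have e3 : z / b * ∑ p ∈ Pr z x, avg d p (lam p) / p + κ * z / b = z / b * (∑ p ∈ Pr z x, avg d p (lam p) / p + κ) := by ring
    rw [e3]
    exact (mul_le_mul_iff_right₀ (by positivity)).symm
  rw [h2]
  refine h1.trans ?_
  refine mul_le_mul_of_nonneg_left (Real.exp_le_exp.2 (le_of_eq ?_)) (by norm_num)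
  rw [ht]
  have e4 : Real.exp (2 * 1) = Real.exp 2 := by norm_num
  rw [e4]
  field_simp
  ring

end Q69ED
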