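import Pool.Agent.Q69.ED.Up

/-!
# The lower bound
-/

set_option autoImplicit false
set_option linter.unusedSectionVars false

namespace Q69ED

open Finset Filter
open Q282LT (avg zbox zprop ZPer mean_shift zbox_card)

lemma choose_s' {a t₀ ε : ℝ} (ha : 1 < a) (ht : t₀ < 1) (hε : 0 < ε) : ∃ s : ℝ, 0 < s ∧ t₀ + s < 1 ∧
    a ^ (t₀ + s) ≤ a ^ t₀ + ε / 2 := by
  have ha0 : 0 < a := by linarith
  have hl : 0 < Real.log a := Real.log_pos ha
  have hE : 0 < a ^ t₀ := Real.rpow_pos_of_pos ha0 _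
  have hq : 0 < ε / (2 * a ^ t₀) := by positivity
  have hlq : 0 < Real.log (1 + ε / (2 * a ^ t₀)) := Real.log_pos (by linarith)
  obtain ⟨s, hs⟩ : ∃ s, s = min ((1 - t₀) / 2) (Real.log (1 + ε / (2 * a ^ t₀)) / Real.log a) := ⟨_, rfl⟩
  have hs1 : s ≤ (1 - t₀) / 2 := by rw [hs]; exact min_le_left _ _
  have hs2 : s ≤ Real.log (1 + ε / (2 * a ^ t₀)) / Real.log a := by rw [hs]; exact min_le_right _ _
  have hs0 : 0 < s := by rw [hs]; exact lt_min (by linarith) (by positivity)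
  refine ⟨s, hs0, by linarith, ?_⟩
  rw [le_div_iff₀ hl] at hs2
  rw [Real.rpow_add ha0]
  have h2 : a ^ s ≤ 1 + ε / (2 * a ^ t₀) := by
    rw [Real.rpow_def_of_pos ha0]
    calc Real.exp (Real.log a * s) ≤ Real.exp (Real.log (1 + ε / (2 * a ^ t₀))) := Real.exp_le_exp.2 (by linarith)
      _ = 1 + ε / (2 * a ^ t₀) := Real.exp_log (by linarith)
  have h3 := mul_le_mul_of_nonneg_left h2 hE.le
  refine h3.trans (le_of_eq ?_)
  field_simp

/-- the deterministic step of the lower bound -/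
lemma low_det {b r m κ h w a ly lz lx A T M1 M2 C₁ e₀ Sy : ℝ} (hD : 0 < b - h - r) (hrm : r < m) (hly : 0 < ly) (hlyz : ly ≤ lz)
    (hC₁ : 0 ≤ C₁) (hθ : w * Real.log a ≤ Real.log (lz / ly)) (hw : (m - r) + 2 * h ≤ (b - h - r) * w) (hla : 0 < Real.log a)
    (hM1 : |M1 - Real.log (lz / ly)| ≤ C₁ / ly) (hM2 : |M2 - Real.log (lx / lz)| ≤ C₁ / lz)
    (hA : |A - r * M2| ≤ e₀) (hSy : (b - h) * M1 + T ≤ Sy) (hT : A - κ ≤ T) (hlz0 : 0 < lz) (hlx0 : 0 < lx)
    (hρ : Real.log (lx / ly) ≤ Real.log a + 1 / ly)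
    (herr : |b - h| * (C₁ / ly) + |r| * (C₁ / ly) + e₀ + (m - r) * (1 / ly) ≤ κ) (hκ : 4 * κ ≤ h * Real.log a) (hκ0 : 0 ≤ κ) :
    m * Real.log (lx / ly) + κ ≤ Sy := by
  have hu : Real.log (lx / lz) = Real.log (lx / ly) - Real.log (lz / ly) := by
    rw [Real.log_div hlx0.ne' hlz0.ne', Real.log_div hlx0.ne' hly.ne', Real.log_div hlz0.ne' hly.ne']
    ring
  have h1 : r * Real.log (lx / lz) - |r| * (C₁ / ly) ≤ r * M2 := by
    have h2 : |r * (M2 - Real.log (lx / lz))| ≤ |r| * (C₁ / ly) := by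
      rw [abs_mul]
      refine mul_le_mul_of_nonneg_left (hM2.trans ?_) (abs_nonneg _)
      exact div_le_div_of_nonneg_left hC₁ hly hlyz
    have h3 := (abs_le.1 h2).1
    linarith
  have h2 := (abs_le.1 hA).1
  have h3 : (b - h) * Real.log (lz / ly) - |b - h| * (C₁ / ly) ≤ (b - h) * M1 := by
    have h2 : |(b - h) * (M1 - Real.log (lz / ly))| ≤ |b - h| * (C₁ / ly) := by
      rw [abs_mul]
      exact mul_le_mul_of_nonneg_left hM1 (abs_nonneg _)
    have h3 := (abs_le.1 h2).1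
    linarith
  have h4 : ((m - r) + 2 * h) * Real.log a ≤ (b - h - r) * Real.log (lz / ly) := by
    calc ((m - r) + 2 * h) * Real.log a ≤ (b - h - r) * w * Real.log a := mul_le_mul_of_nonneg_right hw hla.le
      _ = (b - h - r) * (w * Real.log a) := by ring
      _ ≤ _ := mul_le_mul_of_nonneg_left hθ hD.le
  have h6 : (m - r) * Real.log (lx / ly) ≤ (m - r) * (Real.log a + 1 / ly) := mul_le_mul_of_nonneg_left hρ (by linarith)
  rw [hu] at h1
  linarith

lemma card_le_pi (y z : ℕ) : (Pr y z).card ≤ Nat.primeCounting z := by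
  rw [Nat.primeCounting, Nat.primeCounting', Nat.count_eq_card_filter_range]
  refine card_le_card fun p hp => ?_
  rw [mem_Pr] at hp
  rw [mem_filter, mem_range]
  exact ⟨by omega, hp.2⟩

lemma prod_le (y z : ℕ) : ∏ p ∈ Pr y z, p ≤ 4 ^ z := by
  refine le_trans ?_ (primorial_le_four_pow z)
  unfold primorial
  refine prod_le_prod_of_subset_of_one_le' (fun p hp => ?_) fun p hp _ => ?_
  · rw [mem_Pr] at hp
    rw [mem_filter, mem_range]
    exact ⟨by omega, hp.2⟩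
  · rw [mem_filter] at hp
    exact hp.2.one_lt.le

/-- few primes -/
lemma few_primes {w c₁ : ℝ} (hw : 0 ≤ w) (hc : 0 < c₁) {y z : ℕ} (hyz : y ≤ z) (hy : 2 ≤ y)
    (h1 : 8 * w * Real.log 4 / c₁ ≤ Real.log y) (h2 : 4 * w / c₁ ≤ (y : ℝ) ^ (1 / 2 : ℝ)) :
    w * (Pr y z).card ≤ c₁ * z / 2 := by
  have hyr : (1 : ℝ) < y := by exact_mod_cast (by omega : 1 < y)
  have hzr : (1 : ℝ) < z := by exact_mod_cast (by omega : 1 < z)
  have hz0 : (0 : ℝ) < z := by linarith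
  have hlz : 0 < Real.log z := Real.log_pos hzr
  have hly : 0 < Real.log y := Real.log_pos hyr
  have hlyz : Real.log y ≤ Real.log z := Real.log_le_log (by linarith) (by exact_mod_cast hyz)
  have h3 := Chebyshev.pi_le_log4_mul_div hzr
  rw [Nat.floor_natCast] at h3
  have h4 : ((Pr y z).card : ℝ) ≤ Nat.primeCounting z := by exact_mod_cast card_le_pi y z
  have h5 : Real.log (√(z : ℝ)) = Real.log z / 2 := by
    rw [Real.log_sqrt hz0.le]
  rw [h5] at h3
  have hsq : √(z : ℝ) * √(z : ℝ) = z := Real.mul_self_sqrt hz0.le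
  have hsq0 : 0 < √(z : ℝ) := Real.sqrt_pos.2 hz0
  have k1 : w * (Real.log 4 * z / (Real.log z / 2)) ≤ c₁ * z / 4 := by
    rw [div_le_iff₀ hc] at h1
    have e : w * (Real.log 4 * z / (Real.log z / 2)) = (8 * w * Real.log 4) * z / (4 * Real.log z) := by
      field_simp
      ring
    rw [e, div_le_iff₀ (by positivity)]
    have h6 : 8 * w * Real.log 4 ≤ c₁ * Real.log z := by
      refine h1.trans ?_
      rw [mul_comm]
      exact mul_le_mul_of_nonneg_left hlyz hc.le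
    have h7 := mul_le_mul_of_nonneg_right h6 hz0.le
    linarith
  have k2 : w * √(z : ℝ) ≤ c₁ * z / 4 := by
    rw [div_le_iff₀ hc, ← Real.sqrt_eq_rpow] at h2
    have h6 : √(y : ℝ) ≤ √(z : ℝ) := Real.sqrt_le_sqrt (by exact_mod_cast hyz)
    have h7 : 4 * w ≤ √(z : ℝ) * c₁ := h2.trans (mul_le_mul_of_nonneg_right h6 hc.le)
    have h8 := mul_le_mul_of_nonneg_right h7 hsq0.le
    have e : √(z : ℝ) * c₁ * √(z : ℝ) = c₁ * z := by
      rw [mul_comm (√(z : ℝ)) c₁, mul_assoc, hsq]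
    rw [e] at h8
    linarith
  have h6 := mul_le_mul_of_nonneg_left (h4.trans h3) hw
  rw [mul_add] at h6
  linarith

open Classical in
theorem lower (b r C δ a m ε : ℝ) (c : ℝ → ℝ) (hc : ∀ h, 0 < h → 0 < c h) (hb : 0 < b) (hrm : r < m) (hmb : m < b) (hC : 0 ≤ C)
    (hδ : 0 < δ) (ha : 1 < a) (hε : 0 < ε) :
    ∃ (κ : ℝ) (y₀ : ℕ), 0 < κ ∧ 2 ≤ y₀ ∧ ∀ (d : ℕ) (lam : ℕ → (Fin d → ℤ) → ℝ), Hyp d b r C δ lam →
      (∀ h, 0 < h → ∀ p : ℕ, p.Prime → 1 / c h ≤ p → c h ≤ avg d p (fun ν => if b - h ≤ lam p ν then 1 else 0)) →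
      ∀ (y X : ℕ), y₀ ≤ y → (y : ℝ) ^ a ≤ X → ∀ (u : Fin d → ℤ) (L : Fin d → ℕ),
        (∀ i, (d + 1) * (X : ℝ) ^ ((y : ℝ) ^ (a ^ ((m - r) / (b - r)) + ε)) ≤ L i) →
        Real.exp (-((y : ℝ) ^ (a ^ ((m - r) / (b - r)) + ε))) ≤
          zprop u L (fun ν => ∃ x ≤ X, (y : ℝ) ^ a ≤ x ∧ m * Real.log (Real.log x / Real.log y) + κ ≤ S lam y x ν) := by
  have ha0 : 0 < a := by linarith
  have hla : 0 < Real.log a := Real.log_pos ha
  have hbr : 0 < b - r := by linarith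
  obtain ⟨t₀, ht₀⟩ : ∃ t₀, t₀ = (m - r) / (b - r) := ⟨_, rfl⟩
  have ht0 : 0 < t₀ := by rw [ht₀]; exact div_pos (by linarith) hbr
  have ht1 : t₀ < 1 := by rw [ht₀, div_lt_one hbr]; linarith
  have ht2 : (b - r) * t₀ = m - r := by rw [ht₀]; field_simp
  rw [← ht₀]
  obtain ⟨s, hs0, hst, hs⟩ := choose_s' ha ht1 hε
  obtain ⟨θ, hθ⟩ : ∃ θ, θ = a ^ (t₀ + s) := ⟨_, rfl⟩
  rw [← hθ] at hs
  have hθ1 : 1 < θ := by rw [hθ]; exact Real.one_lt_rpow ha (by linarith)
  have hθa : θ < a := by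
    have h1 : a ^ (t₀ + s) < a ^ (1 : ℝ) := Real.rpow_lt_rpow_of_exponent_lt ha (by linarith)
    rwa [Real.rpow_one, ← hθ] at h1
  have hlθ : Real.log θ = (t₀ + s) * Real.log a := by rw [hθ, Real.log_rpow ha0]
  obtain ⟨h, hh⟩ : ∃ h, h = s * (b - r) / 3 := ⟨_, rfl⟩
  have hh0 : 0 < h := by rw [hh]; positivity
  have hD : 0 < b - h - r := by
    have : s * (b - r) ≤ 1 * (b - r) := mul_le_mul_of_nonneg_right (by linarith) hbr.le
    rw [hh]
    linarith
  have hw : (m - r) + 2 * h ≤ (b - h - r) * (t₀ + s) := by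
    have e : (b - h - r) * (t₀ + s) = (b - r) * t₀ + (b - r) * s - h * (t₀ + s) := by ring
    have e2 : (b - r) * s = 3 * h := by rw [hh]; ring
    have e3 : h * (t₀ + s) ≤ h * 1 := mul_le_mul_of_nonneg_left hst.le hh0.le
    rw [e, ht2, e2]
    linarith
  obtain ⟨κ, hκ⟩ : ∃ κ, κ = min (h * Real.log a / 4) b := ⟨_, rfl⟩
  have hκ0 : 0 < κ := by rw [hκ]; exact lt_min (by positivity) hb
  have hκb : κ ≤ b := by rw [hκ]; exact min_le_right _ _
  have hκ4 : 4 * κ ≤ h * Real.log a := by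
    have : κ ≤ h * Real.log a / 4 := by rw [hκ]; exact min_le_left _ _
    linarith
  obtain ⟨K, hK, htail⟩ := tail
  obtain ⟨C₁, hC₁, hmert⟩ := Pool.Agent.Helper923.HMertens.mertens_ratio
  obtain ⟨c₁, hc₁⟩ : ∃ c₁, c₁ = κ ^ 2 / (2 * b ^ 2 * Real.exp 2) := ⟨_, rfl⟩
  have hc₁0 : 0 < c₁ := by rw [hc₁]; positivity
  obtain ⟨c', hc'⟩ : ∃ c', c' = min (c h) 1 := ⟨_, rfl⟩
  have hc'0 : 0 < c' := by rw [hc']; exact lt_min (hc h hh0) one_pos
  have hc'1 : c' ≤ 1 := by rw [hc']; exact min_le_right _ _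
  have hc'2 : c' ≤ c h := by rw [hc']; exact min_le_left _ _
  obtain ⟨w, hwd⟩ : ∃ w, w = -Real.log c' := ⟨_, rfl⟩
  have hw0 : 0 ≤ w := by rw [hwd]; linarith [Real.log_nonpos hc'0.le hc'1]
  -- the conditions on `y`
  have hev := (ev_ge 4).and ((ev_log (3 * ((|b - h| + |r|) * C₁ + (m - r)) / κ)).and ((ev_rpow hδ (3 * C / (κ * δ))).and
    ((ev_rpow (half_pos hε) (4 * (Real.log 4 + c₁ + K + 4))).and ((ev_log (8 * w * Real.log 4 / c₁)).and
    ((ev_rpow one_half_pos (4 * w / c₁)).and ((ev_rpow one_pos (max (8 / c₁) (1 / c h)))))))))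
  obtain ⟨y₀, hy₀⟩ := eventually_atTop.1 hev
  refine ⟨κ, max y₀ 2, hκ0, le_max_right _ _, ?_⟩
  intro d lam hH htop y X hy hXa u L hL
  obtain ⟨g1, g2, g3, g4, g5, g6, g7⟩ := hy₀ y ((le_max_left _ _).trans hy)
  rw [Real.rpow_one] at g7
  have hy2 : 2 ≤ y := by omega
  have hyr : (0 : ℝ) < y := by exact_mod_cast (by omega : 0 < y)
  have hy1 : (1 : ℝ) < y := by exact_mod_cast (by omega : 1 < y)
  have hly : 0 < Real.log y := Real.log_pos hy1
  have hyX : (y : ℝ) ≤ X := by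
    refine le_trans ?_ hXa
    calc (y : ℝ) = (y : ℝ) ^ (1 : ℝ) := (Real.rpow_one _).symm
      _ ≤ (y : ℝ) ^ a := Real.rpow_le_rpow_of_exponent_le hy1.le ha.le
  have hX2 : 2 ≤ X := by
    have : y ≤ X := by exact_mod_cast hyX
    omega
  have hX2r : (2 : ℝ) ≤ X := by exact_mod_cast hX2
  have hXr : (1 : ℝ) ≤ X := by linarith
  obtain ⟨N, hN⟩ : ∃ N, N = (y : ℝ) ^ (a ^ t₀ + ε) := ⟨_, rfl⟩
  rw [← hN] at hL ⊢
  have hXN : 0 < (X : ℝ) ^ N := Real.rpow_pos_of_pos (by linarith) _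
  have hL0 : ∀ i, (0 : ℝ) < L i := fun i => lt_of_lt_of_le (by positivity) (hL i)
  have hP0 : 0 < ∏ i, (L i : ℝ) := prod_pos fun i _ => hL0 i
  obtain ⟨z, hz⟩ : ∃ z : ℕ, z = ⌈(y : ℝ) ^ θ⌉₊ := ⟨_, rfl⟩
  have hyθ : (y : ℝ) ≤ (y : ℝ) ^ θ := by
    calc (y : ℝ) = (y : ℝ) ^ (1 : ℝ) := (Real.rpow_one _).symm
      _ ≤ (y : ℝ) ^ θ := Real.rpow_le_rpow_of_exponent_le hy1.le hθ1.le
  have hzge : (y : ℝ) ^ θ ≤ z := by rw [hz]; exact Nat.le_ceil _
  have hyz : y ≤ z := by exact_mod_cast hyθ.trans hzge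
  have hzle : (z : ℝ) ≤ 2 * (y : ℝ) ^ θ := by
    have h1 : (z : ℝ) < (y : ℝ) ^ θ + 1 := by rw [hz]; exact Nat.ceil_lt_add_one (by positivity)
    linarith
  have hz2 : 2 ≤ z := hy2.trans hyz
  have hzr : (0 : ℝ) < z := by exact_mod_cast (by omega : 0 < z)
  have hz1 : (1 : ℝ) ≤ z := by exact_mod_cast (by omega : 1 ≤ z)
  have hlz : θ * Real.log y ≤ Real.log z := by
    have := Real.log_le_log (Real.rpow_pos_of_pos hyr _) hzge
    rwa [Real.log_rpow hyr] at this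
  have hlyz : Real.log y ≤ Real.log z := Real.log_le_log hyr (by exact_mod_cast hyz)
  have hlz0 : 0 < Real.log z := hly.trans_le hlyz
  obtain ⟨x, hx⟩ : ∃ x : ℕ, x = ⌈(y : ℝ) ^ a⌉₊ := ⟨_, rfl⟩
  have hxX : x ≤ X := by rw [hx]; exact Nat.ceil_le.2 hXa
  have hxge : (y : ℝ) ^ a ≤ x := by rw [hx]; exact Nat.le_ceil _
  have hzx : z ≤ x := by
    rw [hz, hx]
    exact Nat.ceil_mono (Real.rpow_le_rpow_of_exponent_le hy1.le hθa.le)
  have hya1 : (1 : ℝ) ≤ (y : ℝ) ^ a := Real.one_le_rpow hy1.le ha0.le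
  have hxle : (x : ℝ) ≤ 2 * (y : ℝ) ^ a := by
    have h1 : (x : ℝ) < (y : ℝ) ^ a + 1 := by rw [hx]; exact Nat.ceil_lt_add_one (by positivity)
    linarith
  have hxr : (0 : ℝ) < x := lt_of_lt_of_le (by positivity) hxge
  have hlx : Real.log x ≤ Real.log 2 + a * Real.log y := by
    have := Real.log_le_log hxr hxle
    rwa [Real.log_mul (by norm_num) (by positivity), Real.log_rpow hyr] at this
  have hlx' : a * Real.log y ≤ Real.log x := by
    have := Real.log_le_log (Real.rpow_pos_of_pos hyr _) hxge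
    rwa [Real.log_rpow hyr] at this
  have hlx0 : 0 < Real.log x := lt_of_lt_of_le (by positivity) hlx'
  have hρ : Real.log (Real.log x / Real.log y) ≤ Real.log a + 1 / Real.log y := by
    have h1 : Real.log x / Real.log y ≤ a * (1 + 1 / Real.log y) := by
      rw [div_le_iff₀ hly]
      have e : a * (1 + 1 / Real.log y) * Real.log y = a * Real.log y + a := by field_simp
      rw [e]
      have h2 : Real.log 2 ≤ 1 := by
        have := Real.log_two_lt_d9
        linarith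
      linarith
    refine (Real.log_le_log (by positivity) h1).trans ?_
    rw [Real.log_mul ha0.ne' (by positivity)]
    have := Real.log_le_sub_one_of_pos (x := 1 + 1 / Real.log y) (by positivity)
    linarith
  have herr : |b - h| * (C₁ / Real.log y) + |r| * (C₁ / Real.log y) + C * ((z : ℝ) ^ (-δ) / δ) + (m - r) * (1 / Real.log y) ≤ κ := by
    have h1 : |b - h| * (C₁ / Real.log y) + |r| * (C₁ / Real.log y) + (m - r) * (1 / Real.log y) ≤ κ / 3 := by
      have e : |b - h| * (C₁ / Real.log y) + |r| * (C₁ / Real.log y) + (m - r) * (1 / Real.log y) =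
        ((|b - h| + |r|) * C₁ + (m - r)) / Real.log y := by ring
      rw [e, div_le_iff₀ hly]
      rw [div_le_iff₀ hκ0] at g2
      linarith
    have h2 : C * ((z : ℝ) ^ (-δ) / δ) ≤ κ / 3 := by
      have h3 : (z : ℝ) ^ (-δ) ≤ (y : ℝ) ^ (-δ) := by
        rw [Real.rpow_neg hzr.le, Real.rpow_neg hyr.le]
        exact inv_anti₀ (Real.rpow_pos_of_pos hyr _) (Real.rpow_le_rpow hyr.le (by exact_mod_cast hyz) hδ.le)
      have h4 : C * ((y : ℝ) ^ (-δ) / δ) ≤ κ / 3 := by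
        rw [Real.rpow_neg hyr.le]
        have hp := Real.rpow_pos_of_pos hyr δ
        rw [div_le_iff₀ (by positivity)] at g3
        have e : C * (((y : ℝ) ^ δ)⁻¹ / δ) = C / ((y : ℝ) ^ δ * δ) := by
          rw [inv_eq_one_div, div_div, mul_one_div]
        rw [e, div_le_iff₀ (by positivity)]
        linarith
      exact (mul_le_mul_of_nonneg_left (div_le_div_of_nonneg_right h3 hδ.le) hC).trans h4
    linarith
  -- the size of `N`
  have hl4 : 0 < Real.log 4 := Real.log_pos (by norm_num)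
  have hNz : (Real.log 4 + c₁ + K + 4) * z ≤ N / 2 := by
    have h1 : (y : ℝ) ^ (ε / 2) * (y : ℝ) ^ θ ≤ N := by
      rw [hN, ← Real.rpow_add hyr]
      exact Real.rpow_le_rpow_of_exponent_le hy1.le (by linarith)
    have h2 : (y : ℝ) ^ (ε / 2) * (z / 2) ≤ N :=
      (mul_le_mul_of_nonneg_left (by linarith) (Real.rpow_nonneg hyr.le _)).trans h1
    have h3 := mul_le_mul_of_nonneg_right g4 (by positivity : (0 : ℝ) ≤ z / 2)
    linarith
  have hlog2 : (1 / 2 : ℝ) ≤ Real.log 2 := by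
    have := Real.log_two_gt_d9
    linarith
  have hN0 : 0 ≤ N := by rw [hN]; exact Real.rpow_nonneg hyr.le _
  have hc₁z0 : 0 < c₁ * z := by positivity
  have hKz0 : 0 < K * z := by positivity
  have hl4z0 : 0 < Real.log 4 * z := by positivity
  have hexpand : (Real.log 4 + c₁ + K + 4) * z = Real.log 4 * z + c₁ * z + K * z + 4 * z := by ring
  rw [hexpand] at hNz
  have hXexp : Real.exp (N / 2) ≤ (X : ℝ) ^ N := by
    rw [Real.rpow_def_of_pos (by linarith)]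
    refine Real.exp_le_exp.2 ?_
    have h1 : Real.log 2 ≤ Real.log X := Real.log_le_log (by norm_num) hX2r
    have h2 : 1 / 2 * N ≤ Real.log X * N := mul_le_mul_of_nonneg_right (by linarith) hN0
    linarith
  -- the first primes
  have hfirst := zprop_all (d := d) (Pr y z) id (fun p hp => (mem_Pr.1 hp).2.one_lt.le)
    (fun p hp p' hp' hne => (Nat.coprime_primes (mem_Pr.1 hp).2 (mem_Pr.1 hp').2).2 hne) (fun p ν => b - h ≤ lam p ν)
    (fun p hp ν ν' hν => by rw [hH.per p (mem_Pr.1 hp).2 ν ν' hν]) u L ((d + 1) * (X : ℝ) ^ N) (by positivity) hL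
  have hR : Real.exp (-(c₁ * z / 2)) ≤ ∏ p ∈ Pr y z, avg d (id p) (fun ν => if b - h ≤ lam p ν then 1 else 0) := by
    have h1 : ∏ _p ∈ Pr y z, c' ≤ ∏ p ∈ Pr y z, avg d (id p) (fun ν => if b - h ≤ lam p ν then 1 else 0) := by
      refine prod_le_prod (fun _ _ => hc'0.le) fun p hp => ?_
      have hp' := mem_Pr.1 hp
      refine hc'2.trans (htop h hh0 p hp'.2 ?_)
      have h2 : (y : ℝ) ≤ p := by exact_mod_cast hp'.1.1.le
      exact ((le_max_right _ _).trans g7).trans h2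
    refine le_trans ?_ h1
    rw [prod_const, ← Real.exp_log hc'0, ← Real.exp_nat_mul]
    refine Real.exp_le_exp.2 ?_
    have h2 := few_primes hw0 hc₁0 hyz hy2 g5 g6
    rw [hwd] at h2
    linarith
  have hQ : Real.exp (d * ((∏ p ∈ Pr y z, id p : ℕ) : ℝ) / ((d + 1) * (X : ℝ) ^ N)) - 1 ≤ Real.exp (-(c₁ * z / 2)) / 8 := by
    obtain ⟨v, hv⟩ : ∃ v : ℝ, v = d * ((∏ p ∈ Pr y z, id p : ℕ) : ℝ) / ((d + 1) * (X : ℝ) ^ N) := ⟨_, rfl⟩
    rw [← hv]
    have hv0 : 0 ≤ v := by rw [hv]; positivity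
    have hv1 : v ≤ Real.exp (-(c₁ * z / 2)) / 16 := by
      have h1 : ((∏ p ∈ Pr y z, id p : ℕ) : ℝ) ≤ Real.exp (Real.log 4 * z) := by
        have h2 : ((∏ p ∈ Pr y z, id p : ℕ) : ℝ) ≤ ((4 ^ z : ℕ) : ℝ) := by exact_mod_cast prod_le y z
        refine h2.trans (le_of_eq ?_)
        rw [Nat.cast_pow, ← Real.rpow_natCast, Real.rpow_def_of_pos (by norm_num)]
        norm_num
      have h3 : v ≤ Real.exp (Real.log 4 * z) / Real.exp (N / 2) := by
        rw [hv, mul_div_mul_comm]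
        have hd : (d : ℝ) / (d + 1) ≤ 1 := by
          rw [div_le_one (by positivity)]
          linarith
        calc (d : ℝ) / (d + 1) * (((∏ p ∈ Pr y z, id p : ℕ) : ℝ) / (X : ℝ) ^ N) ≤ 1 * (((∏ p ∈ Pr y z, id p : ℕ) : ℝ) / (X : ℝ) ^ N) :=
              mul_le_mul_of_nonneg_right hd (by positivity)
          _ = ((∏ p ∈ Pr y z, id p : ℕ) : ℝ) / (X : ℝ) ^ N := one_mul _
          _ ≤ Real.exp (Real.log 4 * z) / Real.exp (N / 2) := div_le_div₀ (Real.exp_pos _).le h1 (Real.exp_pos _) hXexp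
      refine h3.trans ?_
      rw [← Real.exp_sub]
      have h16 : (16 : ℝ) ≤ Real.exp 4 := by
        have h := Real.add_one_le_exp (1 : ℝ)
        have h2 : (2 : ℝ) ^ 4 ≤ Real.exp 1 ^ 4 := pow_le_pow_left₀ (by norm_num) (by linarith) 4
        rw [← Real.exp_nat_mul] at h2
        norm_num at h2
        exact h2
      rw [le_div_iff₀ (by norm_num)]
      calc Real.exp (Real.log 4 * z - N / 2) * 16 ≤ Real.exp (Real.log 4 * z - N / 2) * Real.exp 4 :=
            mul_le_mul_of_nonneg_left h16 (Real.exp_pos _).le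
        _ = Real.exp (Real.log 4 * z - N / 2 + 4) := by rw [← Real.exp_add]
        _ ≤ Real.exp (-(c₁ * z / 2)) := Real.exp_le_exp.2 (by linarith)
    have he1 : Real.exp (-(c₁ * z / 2)) ≤ 1 := Real.exp_le_one_iff.2 (by linarith)
    have h9 := Real.abs_exp_sub_one_le (x := v) (by rw [abs_of_nonneg hv0]; linarith)
    rw [abs_of_nonneg hv0] at h9
    have h10 := (le_abs_self _).trans h9
    linarith
  -- the tail
  have hB := htail b κ hb hκ0 hκb d (fun p ν => -lam p ν) (fun p hp ν ν' hν => by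
      show -lam p ν = -lam p ν'
      rw [hH.per p hp ν ν' hν]) (fun p hp ν => by
      show |-lam p ν| ≤ b
      rw [abs_neg]
      exact hH.bd p hp ν) z x X hz2 hxX hX2 u L
      (fun i => (mul_le_mul_of_nonneg_left (Real.rpow_le_rpow_of_exponent_le hXr (by linarith)) (by positivity)).trans (hL i))
  rw [← hc₁] at hB
  have havg : ∀ p, avg d p (fun ν => -lam p ν) = -avg d p (lam p) := by
    intro p
    unfold Q282LT.avg
    rw [sum_neg_distrib, neg_div]
  have hsplit2 : zprop u L (fun ν => ∀ p ∈ Pr y z, b - h ≤ lam p ν) ≤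
      zprop u L (fun ν => ∃ x ≤ X, (y : ℝ) ^ a ≤ x ∧ m * Real.log (Real.log x / Real.log y) + κ ≤ S lam y x ν) +
        zprop u L (fun ν => ∑ p ∈ Pr z x, avg d p (fun ν => -lam p ν) / p + κ ≤ ∑ p ∈ Pr z x, -lam p ν / p) := by
    refine le_trans (zprop_mono hP0 ?_) (zprop_or _ _ hP0)
    intro ν hν
    by_cases hB' : ∑ p ∈ Pr z x, avg d p (fun ν => -lam p ν) / p + κ ≤ ∑ p ∈ Pr z x, -lam p ν / p
    · exact Or.inr hB'
    · left
      refine ⟨x, hxX, hxge, ?_⟩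
      push Not at hB'
      have e1 : ∑ p ∈ Pr z x, avg d p (fun ν => -lam p ν) / p = -∑ p ∈ Pr z x, avg d p (lam p) / p := by
        rw [← sum_neg_distrib]
        refine sum_congr rfl fun p _ => ?_
        rw [havg p, neg_div]
      have e2 : ∑ p ∈ Pr z x, -lam p ν / p = -∑ p ∈ Pr z x, lam p ν / p := by
        rw [← sum_neg_distrib]
        refine sum_congr rfl fun p _ => ?_
        rw [neg_div]
      rw [e1, e2] at hB'
      have hfst : (b - h) * ∑ p ∈ Pr y z, (1 : ℝ) / p ≤ ∑ p ∈ Pr y z, lam p ν / p := by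
        rw [mul_sum]
        refine sum_le_sum fun p hp => ?_
        have hp0 : (0 : ℝ) < p := by exact_mod_cast (mem_Pr.1 hp).2.pos
        rw [mul_one_div]
        exact div_le_div_of_nonneg_right (hν p hp) hp0.le
      have hSs : S lam y x ν = ∑ p ∈ Pr y z, lam p ν / p + ∑ p ∈ Pr z x, lam p ν / p := by
        unfold S
        exact Pr_split hyz hzx _
      refine low_det (b := b) (r := r) (m := m) (h := h) (w := t₀ + s) (a := a) (ly := Real.log y) (lz := Real.log z) (lx := Real.log x)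
        (M1 := ∑ p ∈ Pr y z, (1 : ℝ) / p) (M2 := ∑ p ∈ Pr z x, (1 : ℝ) / p) (C₁ := C₁) (e₀ := C * ((z : ℝ) ^ (-δ) / δ))
        (A := ∑ p ∈ Pr z x, avg d p (lam p) / p) (T := ∑ p ∈ Pr z x, lam p ν / p)
        hD hrm hly hlyz hC₁ ?_ hw hla ?_ ?_ (mean_part hH hδ hC (by omega)) ?_ (by linarith) hlz0 hlx0 hρ herr hκ4 hκ0.le
      · rw [← hlθ]
        refine Real.log_le_log (by linarith) ?_
        rwa [le_div_iff₀ hly]
      · exact hmert y z hy2 hyz
      · exact hmert z x hz2 hzx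
      · rw [hSs]
        linarith
  have hc₁z : 8 ≤ c₁ * z := by
    have h1 : 8 / c₁ ≤ z := ((le_max_left _ _).trans g7).trans (by exact_mod_cast hyz)
    rw [div_le_iff₀ hc₁0] at h1
    linarith
  have h4 : 4 * Real.exp (-(c₁ * z)) ≤ Real.exp (-(c₁ * z / 2)) / 4 := by
    have h16 : (16 : ℝ) ≤ Real.exp 4 := by
      have h := Real.add_one_le_exp (1 : ℝ)
      have h2 : (2 : ℝ) ^ 4 ≤ Real.exp 1 ^ 4 := pow_le_pow_left₀ (by norm_num) (by linarith) 4
      rw [← Real.exp_nat_mul] at h2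
      norm_num at h2
      exact h2
    have e : Real.exp (-(c₁ * z / 2)) = Real.exp (-(c₁ * z)) * Real.exp (c₁ * z / 2) := by
      rw [← Real.exp_add]
      congr 1
      ring
    have h5 : Real.exp 4 ≤ Real.exp (c₁ * z / 2) := Real.exp_le_exp.2 (by linarith)
    have h6 := mul_le_mul_of_nonneg_left (h16.trans h5) (Real.exp_pos (-(c₁ * z))).le
    rw [e]
    linarith
  have h5 : Real.exp (-N) ≤ Real.exp (-(c₁ * z / 2)) / 2 := by
    have h6 : (2 : ℝ) ≤ Real.exp 1 := by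
      have := Real.add_one_le_exp (1 : ℝ)
      linarith
    rw [le_div_iff₀ (by norm_num)]
    calc Real.exp (-N) * 2 ≤ Real.exp (-N) * Real.exp 1 := mul_le_mul_of_nonneg_left h6 (Real.exp_pos _).le
      _ = Real.exp (-N + 1) := by rw [← Real.exp_add]
      _ ≤ _ := Real.exp_le_exp.2 (by linarith)
  have k1 : ∏ p ∈ Pr y z, avg d (id p) (fun ν => if b - h ≤ lam p ν then 1 else 0) -
      (Real.exp (d * ((∏ p ∈ Pr y z, id p : ℕ) : ℝ) / ((d + 1) * (X : ℝ) ^ N)) - 1) ≤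
      zprop u L (fun ν => ∀ p ∈ Pr y z, b - h ≤ lam p ν) := hfirst
  have k2 : zprop u L (fun ν => ∑ p ∈ Pr z x, avg d p (fun ν => -lam p ν) / p + κ ≤ ∑ p ∈ Pr z x, -lam p ν / p) ≤
      4 * Real.exp (-(c₁ * z)) := hB
  have k3 := hR
  have k4 : 0 < Real.exp (-(c₁ * z / 2)) := Real.exp_pos _
  linarith [k1, k2, k3, k4, hQ, hsplit2, h4, h5]

end Q69ED
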