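import Pool.Agent.Q69.ED.Base

/-!
# The upper bound
-/

set_option autoImplicit false
set_option linter.unusedSectionVars false

namespace Q69ED

open Finset Filter
open Q282LT (avg zbox zprop ZPer mean_shift zbox_card)

lemma ev_rpow {s : ℝ} (hs : 0 < s) (M : ℝ) : ∀ᶠ y : ℕ in atTop, M ≤ (y : ℝ) ^ s :=
  ((tendsto_rpow_atTop hs).comp tendsto_natCast_atTop_atTop).eventually_ge_atTop M

lemma ev_log (M : ℝ) : ∀ᶠ y : ℕ in atTop, M ≤ Real.log y :=
  (Real.tendsto_log_atTop.comp tendsto_natCast_atTop_atTop).eventually_ge_atTop M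

lemma ev_ge (n : ℕ) : ∀ᶠ y : ℕ in atTop, n ≤ y := eventually_ge_atTop n

/-- the choice of the exponent -/
lemma choose_s {a t₀ ε : ℝ} (ha : 1 < a) (ht : 0 < t₀) (hε : 0 < ε) : ∃ s : ℝ, 0 < s ∧ s < t₀ ∧
    a ^ t₀ - ε / 2 ≤ a ^ (t₀ - s) := by
  have ha0 : 0 < a := by linarith
  have hl : 0 < Real.log a := Real.log_pos ha
  have hE : 0 < a ^ t₀ := Real.rpow_pos_of_pos ha0 _
  refine ⟨min (t₀ / 2) (ε / (2 * a ^ t₀ * Real.log a)), by positivity, ?_, ?_⟩
  · exact lt_of_le_of_lt (min_le_left _ _) (by linarith)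
  · obtain ⟨s, hs⟩ : ∃ s, s = min (t₀ / 2) (ε / (2 * a ^ t₀ * Real.log a)) := ⟨_, rfl⟩
    rw [← hs]
    have h1 : s ≤ ε / (2 * a ^ t₀ * Real.log a) := by rw [hs]; exact min_le_right _ _
    rw [le_div_iff₀ (by positivity)] at h1
    rw [sub_eq_add_neg t₀ s, Real.rpow_add ha0]
    have h2 : 1 - s * Real.log a ≤ a ^ (-s) := by
      rw [Real.rpow_def_of_pos ha0]
      have := Real.add_one_le_exp (Real.log a * -s)
      linarith
    have h3 := mul_le_mul_of_nonneg_left h2 hE.le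
    have e : a ^ t₀ * (1 - s * Real.log a) = a ^ t₀ - s * (2 * a ^ t₀ * Real.log a) / 2 := by ring
    rw [e] at h3
    linarith

/-- the sum over `(z, x]` splits in the centred sum and the mean -/
lemma mean_part {d : ℕ} {b r C δ : ℝ} {lam : ℕ → (Fin d → ℤ) → ℝ} (hL : Hyp d b r C δ lam) (hδ : 0 < δ) (hC : 0 ≤ C) {z x : ℕ}
    (hz : 1 ≤ z) : |∑ p ∈ Pr z x, avg d p (lam p) / p - r * ∑ p ∈ Pr z x, (1 : ℝ) / p| ≤ C * ((z : ℝ) ^ (-δ) / δ) := by
  rw [mul_sum, ← sum_sub_distrib]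
  refine (abs_sum_le_sum_abs _ _).trans ?_
  refine le_trans ?_ (mul_le_mul_of_nonneg_left (sum_rpow hδ (x := x) hz) hC)
  rw [mul_sum]
  refine sum_le_sum fun p hp => ?_
  have hp' := (mem_Pr.1 hp).2
  have hp0 : (0 : ℝ) < p := by exact_mod_cast hp'.pos
  have e : avg d p (lam p) / p - r * (1 / p) = (avg d p (lam p) - r) / p := by ring
  rw [e, abs_div, abs_of_pos hp0, div_le_iff₀ hp0]
  refine (hL.mean p hp').trans (le_of_eq ?_)
  have e2 : (p : ℝ) ^ (-δ) = (p : ℝ) ^ (-(1 + δ)) * p := by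
    have : -δ = -(1 + δ) + 1 := by ring
    rw [this, Real.rpow_add hp0, Real.rpow_one]
  rw [e2]
  ring

/-- the deterministic step of the upper bound -/
lemma up_det {b r m κ s a ly lz lx A T M1 M2 C₁ e₀ Sy : ℝ} (hrb : r < b) (hrm : r < m) (hb : 0 ≤ b) (hly : 0 < ly) (hlyz : ly ≤ lz) (hlx : a * ly ≤ lx)
    (ha : 1 < a) (hC₁ : 0 ≤ C₁) (hθ : Real.log (lz / ly) ≤ ((m - r) / (b - r) - s) * Real.log a)
    (hM1 : M1 ≤ Real.log (lz / ly) + C₁ / ly) (hM2 : |M2 - Real.log (lx / lz)| ≤ C₁ / lz)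
    (hA : |A - r * M2| ≤ e₀) (hSy : Sy ≤ b * M1 + T) (hlz0 : 0 < lz) (hlx0 : 0 < lx)
    (herr : b * (C₁ / ly) + |r| * (C₁ / ly) + e₀ ≤ κ) (hκ : 4 * κ ≤ s * (b - r) * Real.log a)
    (hev : m * Real.log (lx / ly) - κ ≤ Sy) (hκ0 : 0 ≤ κ) : A + κ ≤ T := by
  have hbr : 0 < b - r := by linarith
  have hu : Real.log (lx / lz) = Real.log (lx / ly) - Real.log (lz / ly) := by
    rw [Real.log_div hlx0.ne' hlz0.ne', Real.log_div hlx0.ne' hly.ne', Real.log_div hlz0.ne' hly.ne']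
    ring
  have hρ : Real.log a ≤ Real.log (lx / ly) := by
    refine Real.log_le_log (by linarith) ?_
    rwa [le_div_iff₀ hly]
  have h1 : r * M2 ≤ r * Real.log (lx / lz) + |r| * (C₁ / ly) := by
    have h2 : |r * (M2 - Real.log (lx / lz))| ≤ |r| * (C₁ / ly) := by
      rw [abs_mul]
      refine mul_le_mul_of_nonneg_left (hM2.trans ?_) (abs_nonneg _)
      exact div_le_div_of_nonneg_left hC₁ hly hlyz
    have h3 := (abs_le.1 h2).2
    linarith
  have h2 := (abs_le.1 hA).2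
  have h3 : b * M1 ≤ b * Real.log (lz / ly) + b * (C₁ / ly) := by
    rw [← mul_add]
    exact mul_le_mul_of_nonneg_left hM1 hb
  have h4 : (b - r) * Real.log (lz / ly) ≤ (m - r) * Real.log a - s * (b - r) * Real.log a := by
    have h5 := mul_le_mul_of_nonneg_left hθ hbr.le
    refine h5.trans (le_of_eq ?_)
    field_simp
  have h6 : (m - r) * Real.log a ≤ (m - r) * Real.log (lx / ly) := mul_le_mul_of_nonneg_left hρ (by linarith)
  rw [hu] at h1
  have h7 : 0 ≤ b * Real.log (lz / ly) - b * Real.log (lz / ly) := by linarith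
  linarith

theorem upper (b r C δ a m ε : ℝ) (hb : 0 < b) (hrm : r < m) (hmb : m < b) (hC : 0 ≤ C) (hδ : 0 < δ) (ha : 1 < a) (hε : 0 < ε) :
    ∃ (κ : ℝ) (y₀ : ℕ), 0 < κ ∧ 2 ≤ y₀ ∧ ∀ (d : ℕ) (lam : ℕ → (Fin d → ℤ) → ℝ), Hyp d b r C δ lam →
      ∀ (y X : ℕ), y₀ ≤ y → (X : ℝ) ≤ Real.exp y → ∀ (u : Fin d → ℤ) (L : Fin d → ℕ), (∀ i, 0 < L i) →
        (∀ i, (d + 1) * (X : ℝ) ^ ((y : ℝ) ^ (a ^ ((m - r) / (b - r)) + ε)) ≤ L i) →
        zprop u L (fun ν => ∃ x ≤ X, (y : ℝ) ^ a ≤ x ∧ m * Real.log (Real.log x / Real.log y) - κ ≤ S lam y x ν) ≤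
          Real.exp (-((y : ℝ) ^ (a ^ ((m - r) / (b - r)) - ε))) := by
  have ha0 : 0 < a := by linarith
  have hla : 0 < Real.log a := Real.log_pos ha
  have hbr : 0 < b - r := by linarith
  obtain ⟨t₀, ht₀⟩ : ∃ t₀, t₀ = (m - r) / (b - r) := ⟨_, rfl⟩
  have ht0 : 0 < t₀ := by rw [ht₀]; exact div_pos (by linarith) hbr
  have ht1 : t₀ < 1 := by rw [ht₀, div_lt_one hbr]; linarith
  rw [← ht₀]
  obtain ⟨s, hs0, hst, hs⟩ := choose_s ha ht0 hε
  obtain ⟨θ, hθ⟩ : ∃ θ, θ = a ^ (t₀ - s) := ⟨_, rfl⟩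
  rw [← hθ] at hs
  have hθ1 : 1 < θ := by rw [hθ]; exact Real.one_lt_rpow ha (by linarith)
  have hθE : θ ≤ a ^ t₀ := by rw [hθ]; exact Real.rpow_le_rpow_of_exponent_le ha.le (by linarith)
  have hθa : θ < a := by
    have h1 : a ^ (t₀ - s) < a ^ (1 : ℝ) := Real.rpow_lt_rpow_of_exponent_lt ha (by linarith)
    rwa [Real.rpow_one, ← hθ] at h1
  have hlθ : Real.log θ = (t₀ - s) * Real.log a := by rw [hθ, Real.log_rpow ha0]
  obtain ⟨κ, hκ⟩ : ∃ κ, κ = min (s * (b - r) * Real.log a / 4) b := ⟨_, rfl⟩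
  have hκ0 : 0 < κ := by rw [hκ]; exact lt_min (by positivity) hb
  have hκb : κ ≤ b := by rw [hκ]; exact min_le_right _ _
  have hκ4 : 4 * κ ≤ s * (b - r) * Real.log a := by
    have : κ ≤ s * (b - r) * Real.log a / 4 := by rw [hκ]; exact min_le_left _ _
    linarith
  obtain ⟨K, hK, htail⟩ := tail
  obtain ⟨C₁, hC₁, hmert⟩ := Pool.Agent.Helper923.HMertens.mertens_ratio
  obtain ⟨c₁, hc₁⟩ : ∃ c₁, c₁ = κ ^ 2 / (2 * b ^ 2 * Real.exp 2) := ⟨_, rfl⟩
  have hc₁0 : 0 < c₁ := by rw [hc₁]; positivity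
  -- the conditions on `y`
  have hev := (ev_ge 4).and ((ev_log (3 * (b + |r|) * C₁ / κ)).and ((ev_rpow hδ (3 * C / (κ * δ))).and
    ((ev_rpow hε (K + 1)).and ((ev_rpow (sub_pos.2 hθ1) (8 / c₁)).and ((ev_rpow (half_pos hε) (8 / c₁)).and
    (ev_rpow (zero_lt_one.trans hθ1) (24 / c₁)))))))
  obtain ⟨y₀, hy₀⟩ := eventually_atTop.1 hev
  refine ⟨κ, max y₀ 2, hκ0, le_max_right _ _, ?_⟩
  intro d lam hH y X hy hX u L hL0 hL
  obtain ⟨g1, g2, g3, g4, g5, g6, g7⟩ := hy₀ y ((le_max_left _ _).trans hy)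
  have hP0 : 0 < ∏ i, (L i : ℝ) := prod_pos fun i _ => by exact_mod_cast hL0 i
  have hy2 : 2 ≤ y := by omega
  have hyr : (0 : ℝ) < y := by exact_mod_cast (by omega : 0 < y)
  have hy1 : (1 : ℝ) < y := by exact_mod_cast (by omega : 1 < y)
  have hly : 0 < Real.log y := Real.log_pos hy1
  by_cases hXa : (y : ℝ) ^ a ≤ X
  swap
  · have h0 : zprop u L (fun ν => ∃ x ≤ X, (y : ℝ) ^ a ≤ x ∧ m * Real.log (Real.log x / Real.log y) - κ ≤ S lam y x ν) ≤ 0 := by
      refine zprop_le hP0 ∅ ?_ (by simp)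
      rintro ν - ⟨x, hx, hxa, -⟩
      exact absurd (hxa.trans (by exact_mod_cast hx)) hXa
    exact h0.trans (Real.exp_pos _).le
  obtain ⟨z, hz⟩ : ∃ z : ℕ, z = ⌊(y : ℝ) ^ θ⌋₊ := ⟨_, rfl⟩
  have hzle : (z : ℝ) ≤ (y : ℝ) ^ θ := by rw [hz]; exact Nat.floor_le (by positivity)
  have hyz : y ≤ z := by
    rw [hz]
    refine Nat.le_floor ?_
    calc (y : ℝ) = (y : ℝ) ^ (1 : ℝ) := (Real.rpow_one _).symm
      _ ≤ (y : ℝ) ^ θ := Real.rpow_le_rpow_of_exponent_le hy1.le hθ1.le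
  have hz2 : 2 ≤ z := hy2.trans hyz
  have hzr : (0 : ℝ) < z := by exact_mod_cast (by omega : 0 < z)
  have hzge : (y : ℝ) ^ θ / 2 ≤ z := by
    have h1 : (y : ℝ) ^ θ < z + 1 := by rw [hz]; exact Nat.lt_floor_add_one _
    have h2 : (1 : ℝ) ≤ z := by exact_mod_cast (by omega : 1 ≤ z)
    linarith
  have hlz : Real.log z ≤ θ * Real.log y := by
    have := Real.log_le_log hzr hzle
    rwa [Real.log_rpow hyr] at this
  have hlyz : Real.log y ≤ Real.log z := Real.log_le_log hyr (by exact_mod_cast hyz)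
  have hlz0 : 0 < Real.log z := hly.trans_le hlyz
  have hX2 : 2 ≤ X := by
    have h1 : (y : ℝ) ≤ X := by
      refine le_trans ?_ hXa
      calc (y : ℝ) = (y : ℝ) ^ (1 : ℝ) := (Real.rpow_one _).symm
        _ ≤ (y : ℝ) ^ a := Real.rpow_le_rpow_of_exponent_le hy1.le ha.le
    have : y ≤ X := by exact_mod_cast h1
    omega
  have hXr : (1 : ℝ) ≤ X := by exact_mod_cast (by omega : 1 ≤ X)
  have herr : b * (C₁ / Real.log y) + |r| * (C₁ / Real.log y) + C * ((z : ℝ) ^ (-δ) / δ) ≤ κ := by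
    have h1 : b * (C₁ / Real.log y) + |r| * (C₁ / Real.log y) ≤ κ / 3 := by
      have e : b * (C₁ / Real.log y) + |r| * (C₁ / Real.log y) = (b + |r|) * C₁ / Real.log y := by ring
      rw [e, div_le_iff₀ hly]
      rw [div_le_iff₀ hκ0] at g2
      linarith
    have h2 : C * ((z : ℝ) ^ (-δ) / δ) ≤ κ / 3 := by
      have h3 : (z : ℝ) ^ (-δ) ≤ (y : ℝ) ^ (-δ) := by
        rw [Real.rpow_neg hzr.le, Real.rpow_neg hyr.le]
        exact inv_anti₀ (Real.rpow_pos_of_pos hyr _) (Real.rpow_le_rpow hyr.le (by exact_mod_cast hyz) hδ.le)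
      have h4 : C * ((y : ℝ) ^ (-δ) / δ) ≤ κ / 3 := by
        rw [Real.rpow_neg hyr.le]
        have hp := Real.rpow_pos_of_pos hyr δ
        rw [div_le_iff₀ (by positivity)] at g3
        have e : C * (((y : ℝ) ^ δ)⁻¹ / δ) = C / ((y : ℝ) ^ δ * δ) := by
          rw [inv_eq_one_div, div_div, mul_one_div]
        rw [e, div_le_iff₀ (by positivity)]
        linarith
      exact (mul_le_mul_of_nonneg_left (div_le_div_of_nonneg_right h3 hδ.le) hC).trans h4
    linarith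
  have hKz : K * z ≤ (y : ℝ) ^ (a ^ t₀ + ε) := by
    have h1 : K * z ≤ (y : ℝ) ^ ε * (y : ℝ) ^ θ :=
      mul_le_mul (by linarith) hzle hzr.le (Real.rpow_nonneg hyr.le _)
    refine h1.trans ?_
    rw [← Real.rpow_add hyr]
    exact Real.rpow_le_rpow_of_exponent_le hy1.le (by linarith)
  have hLK : ∀ i, (d + 1) * (X : ℝ) ^ (K * z) ≤ L i := fun i =>
    (mul_le_mul_of_nonneg_left (Real.rpow_le_rpow_of_exponent_le hXr hKz) (by positivity)).trans (hL i)
  -- one `x`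
  have hone : ∀ x ≤ X, zprop u L (fun ν => (y : ℝ) ^ a ≤ x ∧ m * Real.log (Real.log x / Real.log y) - κ ≤ S lam y x ν) ≤
      4 * Real.exp (-(c₁ * z)) := by
    intro x hx
    by_cases hxa : (y : ℝ) ^ a ≤ x
    swap
    · have h0 : zprop u L (fun ν => (y : ℝ) ^ a ≤ x ∧ m * Real.log (Real.log x / Real.log y) - κ ≤ S lam y x ν) ≤ 0 := by
        refine zprop_le hP0 ∅ ?_ (by simp)
        rintro ν - ⟨hxa', -⟩
        exact absurd hxa' hxa
      exact h0.trans (by positivity)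
    have hxr : (0 : ℝ) < x := lt_of_lt_of_le (Real.rpow_pos_of_pos hyr _) hxa
    have hzx : z ≤ x := by
      have h1 : (z : ℝ) ≤ x := hzle.trans ((Real.rpow_le_rpow_of_exponent_le hy1.le hθa.le).trans hxa)
      exact_mod_cast h1
    have hlx : a * Real.log y ≤ Real.log x := by
      have := Real.log_le_log (Real.rpow_pos_of_pos hyr _) hxa
      rwa [Real.log_rpow hyr] at this
    have hlx0 : 0 < Real.log x := lt_of_lt_of_le (by positivity) hlx
    refine (zprop_mono hP0 ?_).trans ((htail b κ hb hκ0 hκb d lam hH.per hH.bd z x X hz2 hx hX2 u L hLK).trans ?_)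
    · rintro ν ⟨-, hν⟩
      have hsplit : S lam y x ν = ∑ p ∈ Pr y z, lam p ν / p + ∑ p ∈ Pr z x, lam p ν / p := by
        unfold S
        exact Pr_split hyz hzx _
      have hfirst : ∑ p ∈ Pr y z, lam p ν / p ≤ b * ∑ p ∈ Pr y z, (1 : ℝ) / p := by
        rw [mul_sum]
        refine sum_le_sum fun p hp => ?_
        have hp' := (mem_Pr.1 hp).2
        have hp0 : (0 : ℝ) < p := by exact_mod_cast hp'.pos
        rw [mul_one_div]
        exact div_le_div_of_nonneg_right ((le_abs_self _).trans (hH.bd p hp' ν)) hp0.le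
      have hm1 := (abs_le.1 (hmert y z hy2 hyz)).2
      have hm2 := hmert z x hz2 hzx
      refine up_det (b := b) (r := r) (m := m) (s := s) (a := a) (ly := Real.log y) (lz := Real.log z) (lx := Real.log x)
        (M1 := ∑ p ∈ Pr y z, (1 : ℝ) / p) (M2 := ∑ p ∈ Pr z x, (1 : ℝ) / p) (C₁ := C₁) (e₀ := C * ((z : ℝ) ^ (-δ) / δ))
        (Sy := S lam y x ν) (by linarith) hrm hb.le hly hlyz hlx ha hC₁ ?_ ?_ ?_ ?_ ?_ hlz0 hlx0 herr hκ4 hν hκ0.le
      · rw [← ht₀, ← hlθ]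
        refine Real.log_le_log (by positivity) ?_
        rwa [div_le_iff₀ hly]
      · unfold Pr
        linarith
      · unfold Pr
        exact hm2
      · exact mean_part hH hδ hC (by omega)
      · rw [hsplit]
        linarith
    · rw [hc₁]
  refine (zprop_exists hP0 X (fun x ν => (y : ℝ) ^ a ≤ x ∧ m * Real.log (Real.log x / Real.log y) - κ ≤ S lam y x ν) hone).trans ?_
  have h1 : (X : ℝ) + 1 ≤ 2 * Real.exp y := by
    have : (1 : ℝ) ≤ Real.exp y := Real.one_le_exp hyr.le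
    linarith
  have h8 : (8 : ℝ) ≤ Real.exp 3 := by
    have := Real.add_one_le_exp (1 : ℝ)
    have h2 : (2 : ℝ) ^ 3 ≤ Real.exp 1 ^ 3 := pow_le_pow_left₀ (by norm_num) (by linarith) 3
    rw [← Real.exp_nat_mul] at h2
    norm_num at h2
    exact h2
  calc ((X : ℝ) + 1) * (4 * Real.exp (-(c₁ * z))) ≤ (2 * Real.exp y) * (4 * Real.exp (-(c₁ * z))) :=
        mul_le_mul_of_nonneg_right h1 (by positivity)
    _ = 8 * (Real.exp y * Real.exp (-(c₁ * z))) := by ring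
    _ ≤ Real.exp 3 * (Real.exp y * Real.exp (-(c₁ * z))) := mul_le_mul_of_nonneg_right h8 (by positivity)
    _ = Real.exp (3 + (y + -(c₁ * z))) := by rw [Real.exp_add, Real.exp_add]
    _ ≤ Real.exp (-((y : ℝ) ^ (a ^ t₀ - ε))) := by
        refine Real.exp_le_exp.2 ?_
        have hyθ : 0 < (y : ℝ) ^ θ := Real.rpow_pos_of_pos hyr _
        have k1 : (y : ℝ) ≤ c₁ / 8 * (y : ℝ) ^ θ := by
          have e : (y : ℝ) ^ θ = (y : ℝ) ^ (θ - 1) * y := by
            have := Real.rpow_add hyr (θ - 1) 1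
            rw [sub_add_cancel, Real.rpow_one] at this
            exact this
          rw [div_le_iff₀ hc₁0] at g5
          rw [e]
          have h3 := mul_le_mul_of_nonneg_right g5 hyr.le
          linarith
        have k2 : (3 : ℝ) ≤ c₁ / 8 * (y : ℝ) ^ θ := by
          rw [div_le_iff₀ hc₁0] at g7
          linarith
        have k3 : (y : ℝ) ^ (a ^ t₀ - ε) ≤ c₁ / 8 * (y : ℝ) ^ θ := by
          have e : (y : ℝ) ^ θ = (y : ℝ) ^ (ε / 2) * (y : ℝ) ^ (θ - ε / 2) := by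
            rw [← Real.rpow_add hyr]
            congr 1
            ring
          have h4 : (y : ℝ) ^ (a ^ t₀ - ε) ≤ (y : ℝ) ^ (θ - ε / 2) :=
            Real.rpow_le_rpow_of_exponent_le hy1.le (by linarith)
          rw [div_le_iff₀ hc₁0] at g6
          have hq : 0 < (y : ℝ) ^ (θ - ε / 2) := Real.rpow_pos_of_pos hyr _
          have h5 := mul_le_mul_of_nonneg_right g6 hq.le
          rw [e]
          linarith
        have k4 : c₁ * ((y : ℝ) ^ θ / 2) ≤ c₁ * z := mul_le_mul_of_nonneg_left hzge hc₁0.le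
        linarith

end Q69ED
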